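import Pool.Agent.T2H86.RG.Stm

set_option autoImplicit false

namespace Pool.Agent.T2H86.RG

open Finset MeasureTheory ProbabilityTheory

namespace BC3

/-- the exponent -/
noncomputable def sq (x : ℝ) : ℝ := Real.sqrt (Real.log x * Real.log (Real.log x))

lemma log3 : 1 < Real.log 3 := by
  rw [Real.lt_log_iff_exp_lt (by norm_num)]
  exact Real.exp_one_lt_d9.trans (by norm_num)

lemma log16 : Real.exp 1 < Real.log 16 := by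
  have h1 : Real.log 16 = 4 * Real.log 2 := by
    rw [show (16 : ℝ) = 2 ^ (4 : ℕ) by norm_num, Real.log_pow]
    norm_num
  rw [h1]
  have h2 := Real.log_two_gt_d9
  have h3 := Real.exp_one_lt_d9
  linarith

lemma sq3_pos : 0 < sq 3 := Real.sqrt_pos.2 (mul_pos (by linarith [log3]) (Real.log_pos log3))

lemma sq_ge {x : ℝ} (hx : 3 ≤ x) : sq 3 ≤ sq x := by
  apply Real.sqrt_le_sqrt
  have h1 := log3
  have h2 : Real.log 3 ≤ Real.log x := Real.log_le_log (by norm_num) hx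
  have h3 : Real.log (Real.log 3) ≤ Real.log (Real.log x) := Real.log_le_log (by linarith) h2
  exact mul_le_mul h2 h3 (Real.log_pos h1).le (by linarith)

lemma l2_ge {x : ℝ} (hx : 16 ≤ x) : 1 ≤ Real.log (Real.log x) := by
  have h1 := log16
  have h2 : Real.log 16 ≤ Real.log x := Real.log_le_log (by norm_num) hx
  have h3 := Real.exp_pos 1
  rw [Real.le_log_iff_exp_le (by linarith)]
  linarith

lemma l_ge {x : ℝ} (hx : 16 ≤ x) : 2 ≤ Real.log x := by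
  have h1 := log16
  have h2 : Real.log 16 ≤ Real.log x := Real.log_le_log (by norm_num) hx
  have h3 := Real.add_one_le_exp 1
  linarith

lemma sq_one {x : ℝ} (hx : 16 ≤ x) : 1 ≤ sq x := by
  have h1 := l2_ge hx
  have h2 := l_ge hx
  rw [sq, Real.one_le_sqrt]
  nlinarith

/-- the choice of the exponent of the moment -/
lemma choice {x : ℕ} (hx : 16 ≤ x) : ∃ k : ℕ, 1 ≤ k ∧
    (k : ℝ) ^ 2 * Real.log (Real.log ((x : ℝ) + 16)) ≤ 8 * Real.log x ∧ Real.log x ≤ k * sq x := by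
  have hxr : (16 : ℝ) ≤ x := by exact_mod_cast hx
  obtain ⟨l, hl⟩ : ∃ l, l = Real.log (x : ℝ) := ⟨_, rfl⟩
  obtain ⟨m, hm⟩ : ∃ m, m = Real.log (Real.log (x : ℝ)) := ⟨_, rfl⟩
  have hl2 : 2 ≤ l := by rw [hl]; exact l_ge hxr
  have hm1 : 1 ≤ m := by rw [hm]; exact l2_ge hxr
  have hml : m ≤ l := by
    rw [hm, ← hl]
    have := Real.log_le_sub_one_of_pos (show 0 < l by linarith)
    linarith
  have hm' : Real.log (Real.log ((x : ℝ) + 16)) ≤ 2 * m := by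
    have h1 : Real.log ((x : ℝ) + 16) ≤ 2 * l := by
      have h2 : (x : ℝ) + 16 ≤ (x : ℝ) ^ 2 := by nlinarith
      have h3 := Real.log_le_log (by linarith) h2
      rw [Real.log_pow] at h3
      rw [hl]
      exact_mod_cast h3
    have h4 : 0 < Real.log ((x : ℝ) + 16) := Real.log_pos (by linarith)
    have h5 := Real.log_le_log h4 h1
    rw [Real.log_mul (by norm_num) (by linarith)] at h5
    have h6 : Real.log 2 ≤ 1 := by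
      have := Real.log_two_lt_d9
      linarith
    rw [hl] at h5
    rw [← hm] at h5
    linarith
  have h7 : 0 < l / m := by positivity
  have h8 : 0 < Real.sqrt (l / m) := Real.sqrt_pos.2 h7
  have h9 := Nat.le_ceil (Real.sqrt (l / m))
  have h10 := Nat.ceil_lt_add_one h8.le
  refine ⟨⌈Real.sqrt (l / m)⌉₊, Nat.ceil_pos.2 h8, ?_, ?_⟩
  · obtain ⟨k, hk⟩ : ∃ k : ℝ, k = (⌈Real.sqrt (l / m)⌉₊ : ℝ) := ⟨_, rfl⟩
    rw [← hk] at h9 h10 ⊢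
    have h11 : k ^ 2 ≤ 2 * (l / m) + 2 := by
      have h12 := Real.sq_sqrt h7.le
      nlinarith [sq_nonneg (Real.sqrt (l / m) - 1)]
    have h13 : l / m * m = l := div_mul_cancel₀ l (by linarith)
    have h14 : k ^ 2 * Real.log (Real.log ((x : ℝ) + 16)) ≤ k ^ 2 * (2 * m) :=
      mul_le_mul_of_nonneg_left hm' (sq_nonneg k)
    have h15 : k ^ 2 * (2 * m) ≤ (2 * (l / m) + 2) * (2 * m) := mul_le_mul_of_nonneg_right h11 (by linarith)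
    rw [← hl]
    nlinarith
  · have h16 : Real.sqrt (l / m) * sq x = l := by
      unfold sq
      rw [← hm, ← hl, ← Real.sqrt_mul h7.le]
      have h17 : l / m * (l * m) = l * l := by field_simp
      rw [h17, Real.sqrt_mul_self (by linarith)]
    have h18 : 0 ≤ sq (x : ℝ) := Real.sqrt_nonneg _
    calc Real.log (x : ℝ) = Real.sqrt (l / m) * sq x := by rw [h16, hl]
      _ ≤ _ := mul_le_mul_of_nonneg_right h9 h18

/-- the exceptional event -/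
def Ev {Ω : Type} (F : ℕ → ℝ → Ω → ℂ) (m : ℕ) (V : ℝ) (x : ℕ) : Set Ω :=
  ⋃ j ∈ Icc (-((x : ℤ) ^ (m + 5) + 1)) ((x : ℤ) ^ (m + 5) + 1),
    {ω | V ≤ ‖F x ((j : ℝ) / (x : ℝ) ^ 5) ω‖}

lemma markov {Ω : Type} [MeasurableSpace Ω] (μ : Measure Ω) [IsProbabilityMeasure μ]
    (F : ℕ → ℝ → Ω → ℂ) (hF : ∀ x t, Measurable (F x t)) (K : ℝ) (x : ℕ)
    (hb : ∀ ω, ∀ t : ℝ, ‖F x t ω‖ ≤ K * (x : ℝ) ^ 5) (k : ℕ) (V B : ℝ) (hV : 0 < V) (t : ℝ)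
    (hC : ∫ ω, ‖F x t ω‖ ^ (2 * k) ∂μ ≤ B) :
    μ.real {ω | V ≤ ‖F x t ω‖} ≤ B / V ^ (2 * k) := by
  have hp : 0 < V ^ (2 * k) := by positivity
  rw [le_div_iff₀ hp]
  have hint : Integrable (fun ω => ‖F x t ω‖ ^ (2 * k)) μ := by
    refine Integrable.of_bound ((hF x t).norm.pow_const (2 * k)).aestronglyMeasurable ((K * (x : ℝ) ^ 5) ^ (2 * k))
      (Filter.Eventually.of_forall fun ω => ?_)
    rw [Real.norm_eq_abs, abs_of_nonneg (by positivity)]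
    exact pow_le_pow_left₀ (norm_nonneg _) (hb ω t) _
  have h1 := mul_meas_ge_le_integral_of_nonneg (μ := μ) (f := fun ω => ‖F x t ω‖ ^ (2 * k))
    (ae_of_all μ fun ω => pow_nonneg (norm_nonneg _) (2 * k)) hint (V ^ (2 * k))
  have h2 : {ω | V ≤ ‖F x t ω‖} ⊆ {ω | V ^ (2 * k) ≤ ‖F x t ω‖ ^ (2 * k)} := by
    intro ω hω
    have hω' : V ≤ ‖F x t ω‖ := hω
    show V ^ (2 * k) ≤ ‖F x t ω‖ ^ (2 * k)
    exact pow_le_pow_left₀ hV.le hω' _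
  have h3 : μ.real {ω | V ≤ ‖F x t ω‖} ≤ μ.real {ω | V ^ (2 * k) ≤ ‖F x t ω‖ ^ (2 * k)} :=
    measureReal_mono h2 (measure_ne_top μ _)
  calc μ.real {ω | V ≤ ‖F x t ω‖} * V ^ (2 * k)
      ≤ μ.real {ω | V ^ (2 * k) ≤ ‖F x t ω‖ ^ (2 * k)} * V ^ (2 * k) := by gcongr
    _ = V ^ (2 * k) * μ.real {ω | V ^ (2 * k) ≤ ‖F x t ω‖ ^ (2 * k)} := mul_comm _ _
    _ ≤ _ := h1
    _ ≤ B := hC

lemma card_net (x m : ℕ) (hx : 1 ≤ x) :
    (((Icc (-((x : ℤ) ^ (m + 5) + 1)) ((x : ℤ) ^ (m + 5) + 1)).card : ℕ) : ℝ) ≤ 5 * (x : ℝ) ^ (m + 5) := by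
  rw [Int.card_Icc]
  have h1 : (1 : ℤ) ≤ (x : ℤ) ^ (m + 5) := one_le_pow₀ (by exact_mod_cast hx)
  have h2 : ((((x : ℤ) ^ (m + 5) + 1 + 1 - -((x : ℤ) ^ (m + 5) + 1)).toNat : ℕ) : ℤ) ≤ 5 * (x : ℤ) ^ (m + 5) := by
    rw [Int.toNat_of_nonneg (by linarith)]
    linarith
  exact_mod_cast h2

lemma ev_bound {Ω : Type} [MeasurableSpace Ω] (μ : Measure Ω) [IsProbabilityMeasure μ]
    (F : ℕ → ℝ → Ω → ℂ) (hF : ∀ x t, Measurable (F x t)) (K : ℝ)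
    (hb : ∀ x : ℕ, 1 ≤ x → ∀ ω, ∀ t : ℝ, ‖F x t ω‖ ≤ K * (x : ℝ) ^ 5) (m : ℕ) (C : ℝ) (hC0 : 0 ≤ C)
    (hC : ∀ (k x : ℕ), 1 ≤ k → 1 ≤ x → ∀ t : ℝ,
      ∫ ω, ‖F x t ω‖ ^ (2 * k) ∂μ ≤ Real.exp (C * (k : ℝ) ^ 2 * Real.log (Real.log (x + 16))))
    (x : ℕ) (hx : 16 ≤ x) :
    μ.real (Ev F m (Real.exp ((4 * C + m + 7) * sq x)) x) ≤ 5 * (1 / (x : ℝ) ^ 2) := by
  have hx16 : (16 : ℝ) ≤ x := by exact_mod_cast hx
  have hx1 : (1 : ℝ) ≤ x := by linarith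
  have hx0 : (0 : ℝ) < x := by linarith
  obtain ⟨k, hk1, hk2, hk3⟩ := choice hx
  have hl := l_ge hx16
  have h2 : ∀ j ∈ Icc (-((x : ℤ) ^ (m + 5) + 1)) ((x : ℤ) ^ (m + 5) + 1),
      μ.real {ω | Real.exp ((4 * C + m + 7) * sq x) ≤ ‖F x ((j : ℝ) / (x : ℝ) ^ 5) ω‖} ≤ 1 / (x : ℝ) ^ (m + 7) := by
    intro j _
    refine (markov μ F hF K x (hb x (by omega)) k _ _ (Real.exp_pos _) _ (hC k x hk1 (by omega) _)).trans ?_
    rw [← Real.exp_nat_mul, ← Real.exp_sub]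
    have h3 : 1 / (x : ℝ) ^ (m + 7) = Real.exp (-(((m + 7 : ℕ) : ℝ) * Real.log x)) := by
      rw [Real.exp_neg, ← Real.log_pow, Real.exp_log (by positivity), one_div]
    rw [h3, Real.exp_le_exp]
    have h4 : C * (k : ℝ) ^ 2 * Real.log (Real.log ((x : ℝ) + 16)) ≤ C * (8 * Real.log x) := by
      rw [mul_assoc]
      exact mul_le_mul_of_nonneg_left hk2 hC0
    have h5 : ((2 * k : ℕ) : ℝ) * ((4 * C + m + 7) * sq x) = 2 * (4 * C + m + 7) * (k * sq x) := by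
      push_cast
      ring
    have h6 : 2 * (4 * C + m + 7) * Real.log x ≤ 2 * (4 * C + m + 7) * (k * sq x) :=
      mul_le_mul_of_nonneg_left hk3 (by positivity)
    rw [h5]
    push_cast
    have h7 : 0 ≤ (m : ℝ) * Real.log x := by positivity
    nlinarith
  calc μ.real (Ev F m (Real.exp ((4 * C + m + 7) * sq x)) x) ≤ ∑ j ∈ Icc (-((x : ℤ) ^ (m + 5) + 1)) ((x : ℤ) ^ (m + 5) + 1),
        μ.real {ω | Real.exp ((4 * C + m + 7) * sq x) ≤ ‖F x ((j : ℝ) / (x : ℝ) ^ 5) ω‖} := measureReal_biUnion_finset_le _ _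
    _ ≤ ∑ j ∈ Icc (-((x : ℤ) ^ (m + 5) + 1)) ((x : ℤ) ^ (m + 5) + 1), 1 / (x : ℝ) ^ (m + 7) := sum_le_sum h2
    _ = ((Icc (-((x : ℤ) ^ (m + 5) + 1)) ((x : ℤ) ^ (m + 5) + 1)).card : ℝ) * (1 / (x : ℝ) ^ (m + 7)) := by
        rw [sum_const, nsmul_eq_mul]
    _ ≤ (5 * (x : ℝ) ^ (m + 5)) * (1 / (x : ℝ) ^ (m + 7)) := by
        gcongr
        exact card_net x m (by omega)
    _ = 5 * (1 / (x : ℝ) ^ 2) := by
        have h8 : (x : ℝ) ^ (m + 7) = (x : ℝ) ^ (m + 5) * (x : ℝ) ^ 2 := by ring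
        rw [h8]
        field_simp

lemma key {Ω : Type} [MeasurableSpace Ω] (μ : Measure Ω) [IsProbabilityMeasure μ]
    (F : ℕ → ℝ → Ω → ℂ) (hF : ∀ x t, Measurable (F x t)) (K C : ℝ) (hC0 : 0 ≤ C)
    (hC : ∀ (k x : ℕ), 1 ≤ k → 1 ≤ x → ∀ t : ℝ,
      ∫ ω, ‖F x t ω‖ ^ (2 * k) ∂μ ≤ Real.exp (C * (k : ℝ) ^ 2 * Real.log (Real.log (x + 16))))
    (hL : ∀ x : ℕ, 1 ≤ x → ∀ ω, (∀ t t' : ℝ, ‖F x t ω - F x t' ω‖ ≤ K * (x : ℝ) ^ 5 * |t - t'|) ∧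
      ∀ t : ℝ, ‖F x t ω‖ ≤ K * (x : ℝ) ^ 5) (hK : 0 ≤ K) (m : ℕ) :
    ∀ᵐ ω ∂μ, ∃ N : ℕ, ∀ x : ℕ, N ≤ x → 16 ≤ x → ∀ t : ℝ, |t| ≤ (x : ℝ) ^ m →
      ‖F x t ω‖ ≤ Real.exp ((4 * C + m + 7) * sq x) + K := by
  have h1 : (∑' n : ℕ, μ (Ev F m (Real.exp ((4 * C + m + 7) * sq ((n + 16 : ℕ) : ℝ))) (n + 16))) ≠ ⊤ := by
    have h2 : Summable (fun n : ℕ => 5 * (1 / ((n + 16 : ℕ) : ℝ) ^ 2)) := by
      have h3 := (summable_nat_add_iff (f := fun n : ℕ => 1 / (n : ℝ) ^ 2) 16).2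
        (Real.summable_one_div_nat_pow.2 one_lt_two)
      exact h3.mul_left 5
    refine ne_top_of_le_ne_top h2.tsum_ofReal_ne_top (ENNReal.tsum_le_tsum fun n => ?_)
    have h3 := ev_bound μ F hF K (fun x hx ω => (hL x hx ω).2) m C hC0 hC (n + 16) (by omega)
    rw [← ENNReal.ofReal_toReal (measure_ne_top μ (Ev F m (Real.exp ((4 * C + m + 7) * sq ((n + 16 : ℕ) : ℝ))) (n + 16)))]
    exact ENNReal.ofReal_le_ofReal h3
  filter_upwards [ae_eventually_notMem h1] with ω hω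
  obtain ⟨N, hN⟩ := Filter.eventually_atTop.1 hω
  refine ⟨N + 16, fun x hx hx16 t ht => ?_⟩
  have hx1 : 1 ≤ x := by omega
  have h2 := hN (x - 16) (by omega)
  rw [Nat.sub_add_cancel hx16] at h2
  have hxr : (1 : ℝ) ≤ x := by exact_mod_cast hx1
  have hx0 : (0 : ℝ) < x := by linarith
  have hx5 : (0 : ℝ) < (x : ℝ) ^ 5 := by positivity
  set j : ℤ := ⌊t * (x : ℝ) ^ 5⌋ with hj
  have hj1 : (j : ℝ) ≤ t * (x : ℝ) ^ 5 := Int.floor_le _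
  have hj2 : t * (x : ℝ) ^ 5 < j + 1 := Int.lt_floor_add_one _
  have ht1 : |t * (x : ℝ) ^ 5| ≤ (x : ℝ) ^ (m + 5) := by
    rw [abs_mul, abs_of_pos hx5, pow_add]
    gcongr
  have ht2 := abs_le.1 ht1
  have hjm : j ∈ Icc (-((x : ℤ) ^ (m + 5) + 1)) ((x : ℤ) ^ (m + 5) + 1) := by
    rw [mem_Icc]
    constructor
    · have : (-((x : ℝ) ^ (m + 5) + 1)) ≤ (j : ℝ) := by linarith
      exact_mod_cast this
    · have : (j : ℝ) ≤ (x : ℝ) ^ (m + 5) + 1 := by linarith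
      exact_mod_cast this
  have h3 : ‖F x ((j : ℝ) / (x : ℝ) ^ 5) ω‖ < Real.exp ((4 * C + m + 7) * sq x) := by
    by_contra hcon
    push Not at hcon
    apply h2
    unfold Ev
    exact Set.mem_biUnion (mem_coe.2 hjm) hcon
  have h4 := (hL x hx1 ω).1 t ((j : ℝ) / (x : ℝ) ^ 5)
  have h5 : |t - (j : ℝ) / (x : ℝ) ^ 5| ≤ 1 / (x : ℝ) ^ 5 := by
    have h6 : t - (j : ℝ) / (x : ℝ) ^ 5 = (t * (x : ℝ) ^ 5 - j) / (x : ℝ) ^ 5 := by field_simp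
    rw [h6, abs_div, abs_of_pos hx5, abs_of_nonneg (by linarith)]
    gcongr
    linarith
  have h6 : K * (x : ℝ) ^ 5 * |t - (j : ℝ) / (x : ℝ) ^ 5| ≤ K := by
    calc K * (x : ℝ) ^ 5 * |t - (j : ℝ) / (x : ℝ) ^ 5| ≤ K * (x : ℝ) ^ 5 * (1 / (x : ℝ) ^ 5) := by gcongr
      _ = K := by field_simp
  calc ‖F x t ω‖ = ‖F x ((j : ℝ) / (x : ℝ) ^ 5) ω + (F x t ω - F x ((j : ℝ) / (x : ℝ) ^ 5) ω)‖ := by
        congr 1
        ring
    _ ≤ ‖F x ((j : ℝ) / (x : ℝ) ^ 5) ω‖ + ‖F x t ω - F x ((j : ℝ) / (x : ℝ) ^ 5) ω‖ := norm_add_le _ _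
    _ ≤ Real.exp ((4 * C + m + 7) * sq x) + K := by linarith

end BC3

open BC3 in
theorem pBC3 : S_BC3 := by
  intro Ω _ μ _ F hF hmom hL
  obtain ⟨C, hC0, hC⟩ := hmom
  obtain ⟨K, hK, hL⟩ := hL
  have h1 : ∀ᵐ ω ∂μ, ∀ m : ℕ, ∃ N : ℕ, ∀ x : ℕ, N ≤ x → 16 ≤ x → ∀ t : ℝ, |t| ≤ (x : ℝ) ^ m →
      ‖F x t ω‖ ≤ Real.exp ((4 * C + m + 7) * BC3.sq x) + K := by
    rw [ae_all_iff]
    intro m
    exact BC3.key μ F hF K C hC0 hC hL hK m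
  filter_upwards [h1] with ω hω A hA
  obtain ⟨N, hN⟩ := hω ⌈A⌉₊
  obtain ⟨a, ha⟩ : ∃ a : ℝ, a = 4 * C + (⌈A⌉₊ : ℝ) + 7 := ⟨_, rfl⟩
  obtain ⟨b, hb⟩ : ∃ b : ℝ, b = Real.log (1 + K) := ⟨_, rfl⟩
  obtain ⟨M, hM⟩ : ∃ M : ℝ, M = 1 + K * ((N : ℝ) + 16) ^ 5 := ⟨_, rfl⟩
  obtain ⟨c, hc⟩ : ∃ c : ℝ, c = Real.log M / BC3.sq 3 := ⟨_, rfl⟩
  have ha0 : 0 ≤ a := by rw [ha]; positivity
  have hb0 : 0 ≤ b := by rw [hb]; exact Real.log_nonneg (by linarith)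
  have hM1 : 1 ≤ M := by
    rw [hM]
    have : 0 ≤ K * ((N : ℝ) + 16) ^ 5 := by positivity
    linarith
  have hc0 : 0 ≤ c := by rw [hc]; exact div_nonneg (Real.log_nonneg hM1) sq3_pos.le
  refine ⟨a + b + c, fun x hx t ht => ?_⟩
  change ‖F x t ω‖ ≤ Real.exp ((a + b + c) * BC3.sq x)
  have hx3 : (3 : ℝ) ≤ x := by exact_mod_cast hx
  have hs0 : 0 ≤ BC3.sq (x : ℝ) := Real.sqrt_nonneg _
  have hxr : (1 : ℝ) ≤ x := by linarith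
  by_cases hNx : N + 16 ≤ x
  · have hx16 : 16 ≤ x := by omega
    have h2 : |t| ≤ (x : ℝ) ^ ⌈A⌉₊ := by
      refine ht.trans ?_
      rw [← Real.rpow_natCast]
      exact Real.rpow_le_rpow_of_exponent_le hxr (Nat.le_ceil A)
    have h3 := hN x (by omega) hx16 t h2
    rw [← ha] at h3
    have h4 : 1 ≤ BC3.sq (x : ℝ) := sq_one (by exact_mod_cast hx16)
    have h5 : 1 ≤ Real.exp (a * BC3.sq x) := Real.one_le_exp (by positivity)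
    have h6 : 1 + K ≤ Real.exp (b * BC3.sq x) := by
      calc 1 + K = Real.exp b := by rw [hb, Real.exp_log (by linarith)]
        _ ≤ _ := Real.exp_le_exp.2 (by nlinarith)
    have h7 : Real.exp (a * BC3.sq x) + K ≤ Real.exp (a * BC3.sq x) * (1 + K) := by nlinarith
    calc ‖F x t ω‖ ≤ Real.exp (a * BC3.sq x) * (1 + K) := h3.trans h7
      _ ≤ Real.exp (a * BC3.sq x) * Real.exp (b * BC3.sq x) := mul_le_mul_of_nonneg_left h6 (Real.exp_pos _).le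
      _ = Real.exp (a * BC3.sq x + b * BC3.sq x) := (Real.exp_add _ _).symm
      _ ≤ _ := Real.exp_le_exp.2 (by nlinarith)
  · push Not at hNx
    have h2 := (hL x (by omega) ω).2 t
    have h3 : (x : ℝ) ≤ (N : ℝ) + 16 := by exact_mod_cast hNx.le
    have h4 : K * (x : ℝ) ^ 5 ≤ K * ((N : ℝ) + 16) ^ 5 := by gcongr
    have h5 : M = Real.exp (c * BC3.sq 3) := by
      rw [hc, div_mul_cancel₀ _ sq3_pos.ne', Real.exp_log (by linarith)]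
    have h6 : c * BC3.sq 3 ≤ (a + b + c) * BC3.sq x := by
      have h7 := sq_ge hx3
      have h8 : c * BC3.sq 3 ≤ c * BC3.sq x := mul_le_mul_of_nonneg_left h7 hc0
      nlinarith [mul_nonneg ha0 hs0, mul_nonneg hb0 hs0]
    calc ‖F x t ω‖ ≤ M := by rw [hM]; linarith
      _ = Real.exp (c * BC3.sq 3) := h5
      _ ≤ _ := Real.exp_le_exp.2 h6

end Pool.Agent.T2H86.RG
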