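import Pool.Agent.T2H86.RG.Stm

/-!
# Package IMP
-/

set_option autoImplicit false

namespace Pool.Agent.T2H86.RG

open Finset MeasureTheory ProbabilityTheory Pool.Agent.T2H86.RC

namespace PkgIMP

theorem ll_nonneg (x : ℕ) : 0 ≤ Real.log (Real.log ((x : ℝ) + 16)) := by
  apply Real.log_nonneg
  have hx : (0 : ℝ) ≤ x := Nat.cast_nonneg x
  rw [Real.le_log_iff_exp_le (by linarith)]
  have := Real.exp_one_lt_d9
  linarith

theorem ll_le (C ε : ℝ) (hε : 0 < ε) : ∃ C' : ℝ, ∀ x : ℕ, 1 ≤ x →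
    C * Real.log (Real.log ((x : ℝ) + 16)) ≤ ε * Real.log x + C' := by
  set δ : ℝ := ε / (|C| + 1) with hδ
  have hδ0 : 0 < δ := by positivity
  refine ⟨|C| * (δ * Real.log 17 + (-1 - Real.log δ)), fun x hx => ?_⟩
  have hx1 : (1 : ℝ) ≤ x := by exact_mod_cast hx
  have hl : 0 ≤ Real.log x := Real.log_nonneg hx1
  set u : ℝ := Real.log ((x : ℝ) + 16) with hu
  have hu0 : 0 < u := Real.log_pos (by linarith)
  have h1 : Real.log u ≤ δ * u + (-1 - Real.log δ) := by
    have h2 := Real.log_le_sub_one_of_pos (mul_pos hδ0 hu0)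
    rw [Real.log_mul hδ0.ne' hu0.ne'] at h2
    linarith
  have h3 : u ≤ Real.log 17 + Real.log x := by
    rw [hu, ← Real.log_mul (by norm_num) (by linarith)]
    apply Real.log_le_log (by linarith)
    linarith
  have h4 : C * Real.log u ≤ |C| * Real.log u :=
    mul_le_mul_of_nonneg_right (le_abs_self C) (ll_nonneg x)
  have h5 : |C| * Real.log u ≤ |C| * (δ * (Real.log 17 + Real.log x) + (-1 - Real.log δ)) := by
    apply mul_le_mul_of_nonneg_left _ (abs_nonneg C)
    have := mul_le_mul_of_nonneg_left h3 hδ0.le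
    linarith
  have h6 : |C| * δ ≤ ε := by
    rw [hδ, mul_div_assoc', div_le_iff₀ (by positivity)]
    nlinarith [abs_nonneg C]
  have h7 : |C| * δ * Real.log x ≤ ε * Real.log x := mul_le_mul_of_nonneg_right h6 hl
  nlinarith

end PkgIMP

open PkgIMP in
theorem pIMP : S_IMP := by
  constructor
  · intro P q hq
    refine ⟨hq.two_le, hq.finite, fun ε hε => ?_⟩
    obtain ⟨C, hC⟩ := hq.recip
    obtain ⟨C', hC'⟩ := ll_le C ε hε
    exact ⟨C', fun x hx S hS => (hC x S hS).trans (hC' x hx)⟩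
  · intro P q lam h
    refine ⟨h.one, h.mul, h.bound, h.square, fun ε hε => ?_⟩
    obtain ⟨C, hC⟩ := h.rankin
    obtain ⟨C', hC'⟩ := ll_le C ε hε
    exact ⟨C', fun x hx S hS => (hC x S hS).trans (hC' x hx)⟩

end Pool.Agent.T2H86.RG
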