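import Pool.Agent.T2H86.RG.Stm
import Pool.Agent.T2H86.RC.LOC

/-!
# Package LO3
-/

set_option autoImplicit false

namespace Pool.Agent.T2H86.RG

open Finset MeasureTheory ProbabilityTheory Pool.Agent.T2H86.RC

namespace PkgLO3

theorem exp_int {Ω : Type} [MeasurableSpace Ω] (μ : Measure Ω) [IsProbabilityMeasure μ] (Y : Ω → ℝ)
    (hY : Measurable Y) (hs : μ.map Y = μ.map (fun ω => -Y ω)) (hb : ∀ ω, |Y ω| ≤ 1) (s : ℝ) :
    Integrable (fun ω => Real.exp (s * Y ω)) μ ∧ ∫ ω, Real.exp (s * Y ω) ∂μ ≤ Real.exp (s ^ 2 / 2) := by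
  have hint : ∀ s : ℝ, Integrable (fun ω => Real.exp (s * Y ω)) μ := by
    intro s
    refine Integrable.of_bound (C := Real.exp |s|) ?_ (Filter.Eventually.of_forall fun ω => ?_)
    · exact (Real.measurable_exp.comp (hY.const_mul s)).aestronglyMeasurable
    · rw [Real.norm_eq_abs, abs_of_pos (Real.exp_pos _)]
      apply Real.exp_le_exp.2
      calc s * Y ω ≤ |s * Y ω| := le_abs_self _
        _ = |s| * |Y ω| := abs_mul _ _
        _ ≤ |s| * 1 := mul_le_mul_of_nonneg_left (hb ω) (abs_nonneg _)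
        _ = |s| := mul_one _
  refine ⟨hint s, ?_⟩
  have hm : Measurable (fun x : ℝ => Real.exp (s * x)) := by fun_prop
  have h1 : ∫ x, Real.exp (s * x) ∂(μ.map Y) = ∫ ω, Real.exp (s * Y ω) ∂μ :=
    integral_map hY.aemeasurable hm.aestronglyMeasurable
  have h2 : ∫ x, Real.exp (s * x) ∂(μ.map (fun ω => -Y ω)) = ∫ ω, Real.exp (s * -Y ω) ∂μ :=
    integral_map hY.neg.aemeasurable hm.aestronglyMeasurable
  rw [← hs, h1] at h2
  have h3 : ∫ ω, Real.exp (s * Y ω) ∂μ + ∫ ω, Real.exp (s * -Y ω) ∂μ =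
      ∫ ω, (Real.exp (s * Y ω) + Real.exp (s * -Y ω)) ∂μ := by
    rw [integral_add (hint s)]
    refine (hint (-s)).congr (Filter.Eventually.of_forall fun ω => ?_)
    show Real.exp (-s * Y ω) = Real.exp (s * -Y ω)
    congr 1; ring
  have h4 : ∫ ω, (Real.exp (s * Y ω) + Real.exp (s * -Y ω)) ∂μ ≤ ∫ _ω, 2 * Real.exp (s ^ 2 / 2) ∂μ := by
    apply integral_mono
    · refine (hint s).add ((hint (-s)).congr (Filter.Eventually.of_forall fun ω => ?_))
      show Real.exp (-s * Y ω) = Real.exp (s * -Y ω)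
      congr 1; ring
    · exact integrable_const _
    · intro ω
      show Real.exp (s * Y ω) + Real.exp (s * -Y ω) ≤ 2 * Real.exp (s ^ 2 / 2)
      have h5 := Real.cosh_le_exp_half_sq (s * Y ω)
      rw [Real.cosh_eq] at h5
      have e : s * -Y ω = -(s * Y ω) := by ring
      rw [e]
      have h6 : Real.exp ((s * Y ω) ^ 2 / 2) ≤ Real.exp (s ^ 2 / 2) := by
        apply Real.exp_le_exp.2
        have h7 : Y ω ^ 2 ≤ 1 := by
          rw [← sq_abs]
          exact pow_le_one₀ (abs_nonneg _) (hb ω)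
        have h8 : (s * Y ω) ^ 2 ≤ s ^ 2 := by
          rw [mul_pow]
          exact mul_le_of_le_one_right (sq_nonneg s) h7
        linarith
      linarith
  rw [integral_const] at h4
  simp only [probReal_univ, one_smul] at h4
  linarith

end PkgLO3

open PkgLO3 in
theorem pLO3 : S_LO3 := by
  intro V hV
  refine ⟨4 + 4 * V, by positivity, ?_⟩
  intro Ω _ μ _ Y hY hs hb k J b hk hJ hb0 hb1 hbV
  set s : ℝ := ∑ j ∈ Icc 2 J, b j with hsdef
  have hs0 : 0 ≤ s := Finset.sum_nonneg fun j _ => hb0 j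
  have hb' : 1 + (b 1 + s) ≤ V := by
    rw [LOC.split J hJ b, hb1] at hbV
    exact hbV
  have hb10 := hb0 1
  have hk1 : (1 : ℝ) ≤ k := by exact_mod_cast hk
  -- integrability of the left side
  have hgint : Integrable (fun ω => (∑ j ∈ range (J + 1), b j * Y ω ^ j) ^ (2 * k)) μ := by
    refine Integrable.of_bound (C := (∑ j ∈ range (J + 1), b j) ^ (2 * k)) ?_
      (Filter.Eventually.of_forall fun ω => ?_)
    · apply Measurable.aestronglyMeasurable
      apply Measurable.pow_const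
      apply Finset.measurable_fun_sum
      intro j _
      exact (hY.pow_const j).const_mul (b j)
    · rw [norm_pow, Real.norm_eq_abs]
      apply pow_le_pow_left₀ (abs_nonneg _)
      calc |∑ j ∈ range (J + 1), b j * Y ω ^ j| ≤ ∑ j ∈ range (J + 1), |b j * Y ω ^ j| :=
            Finset.abs_sum_le_sum_abs _ _
        _ ≤ ∑ j ∈ range (J + 1), b j := by
            apply Finset.sum_le_sum
            intro j _
            rw [abs_mul, abs_of_nonneg (hb0 j), abs_pow]
            exact mul_le_of_le_one_right (hb0 j) (pow_le_one₀ (abs_nonneg _) (hb ω))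
  -- pointwise decomposition
  have hdec : ∀ ω, ∃ r : ℝ, |r| ≤ s ∧
      ∑ j ∈ range (J + 1), b j * Y ω ^ j = 1 + (b 1 * Y ω + r) := by
    intro ω
    refine ⟨∑ j ∈ Icc 2 J, b j * Y ω ^ j, ?_, ?_⟩
    · calc |∑ j ∈ Icc 2 J, b j * Y ω ^ j| ≤ ∑ j ∈ Icc 2 J, |b j * Y ω ^ j| :=
            Finset.abs_sum_le_sum_abs _ _
        _ ≤ ∑ j ∈ Icc 2 J, b j := by
            apply Finset.sum_le_sum
            intro j _
            rw [abs_mul, abs_of_nonneg (hb0 j), abs_pow]
            exact mul_le_of_le_one_right (hb0 j) (pow_le_one₀ (abs_nonneg _) (hb ω))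
    · rw [LOC.split J hJ (fun j => b j * Y ω ^ j)]
      simp only [pow_zero, mul_one, pow_one, hb1]
  have hbY : ∀ ω, |b 1 * Y ω| ≤ b 1 := by
    intro ω
    rw [abs_mul, abs_of_nonneg hb10]
    exact mul_le_of_le_one_right hb10 (hb ω)
  by_cases hM : 1 ≤ b 1 + s
  · -- trivial bound
    have h1 : ∀ ω, (∑ j ∈ range (J + 1), b j * Y ω ^ j) ^ (2 * k) ≤
        Real.exp (2 * k * (b 1 + s)) := by
      intro ω
      obtain ⟨r, hr, he⟩ := hdec ω
      rw [he]
      have h2 : |1 + (b 1 * Y ω + r)| ≤ Real.exp (b 1 + s) := by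
        have h3 : |1 + (b 1 * Y ω + r)| ≤ 1 + (b 1 + s) := by
          calc |1 + (b 1 * Y ω + r)| ≤ |1| + (|b 1 * Y ω| + |r|) :=
                (abs_add_le _ _).trans (by linarith [abs_add_le (b 1 * Y ω) r])
            _ ≤ 1 + (b 1 + s) := by rw [abs_one]; linarith [hbY ω]
        linarith [Real.add_one_le_exp (b 1 + s)]
      calc (1 + (b 1 * Y ω + r)) ^ (2 * k) = |1 + (b 1 * Y ω + r)| ^ (2 * k) := by
            rw [Even.pow_abs ⟨k, by ring⟩]
        _ ≤ Real.exp (b 1 + s) ^ (2 * k) := pow_le_pow_left₀ (abs_nonneg _) h2 _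
        _ = Real.exp (2 * k * (b 1 + s)) := by
            rw [← Real.exp_nat_mul]
            congr 1
            push_cast
            ring
    have h2 : ∫ ω, (∑ j ∈ range (J + 1), b j * Y ω ^ j) ^ (2 * k) ∂μ ≤
        ∫ _ω, Real.exp (2 * k * (b 1 + s)) ∂μ := integral_mono hgint (integrable_const _) h1
    rw [integral_const] at h2
    simp only [probReal_univ, one_smul] at h2
    refine h2.trans (Real.exp_le_exp.2 ?_)
    have h3 : (k : ℝ) ≤ (k : ℝ) ^ 2 := by nlinarith
    have h4 : b 1 + s ≤ (b 1 + s) ^ 2 := by nlinarith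
    have h5 : (b 1 + s) ^ 2 ≤ 2 * b 1 ^ 2 + 2 * (V * s) := by
      have : s * s ≤ V * s := mul_le_mul_of_nonneg_right (by linarith) hs0
      nlinarith [sq_nonneg (b 1 - s)]
    have h6 : (b 1 + s) ≤ (2 + 2 * V) * (b 1 ^ 2 + s) := by
      have t1 : 0 ≤ V * b 1 ^ 2 := by positivity
      nlinarith
    have h7 : (k : ℝ) * (b 1 + s) ≤ (k : ℝ) ^ 2 * ((2 + 2 * V) * (b 1 ^ 2 + s)) :=
      mul_le_mul h3 h6 (by linarith) (by positivity)
    nlinarith
  · push Not at hM
    have h1 : ∀ ω, (∑ j ∈ range (J + 1), b j * Y ω ^ j) ^ (2 * k) ≤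
        Real.exp (2 * k * s) * Real.exp ((2 * k * b 1) * Y ω) := by
      intro ω
      obtain ⟨r, hr, he⟩ := hdec ω
      rw [he]
      have h2 : 0 ≤ 1 + (b 1 * Y ω + r) := by
        have := (abs_le.1 (hbY ω)).1
        have := (abs_le.1 hr).1
        linarith
      have h3 : 1 + (b 1 * Y ω + r) ≤ Real.exp (b 1 * Y ω + r) := by
        linarith [Real.add_one_le_exp (b 1 * Y ω + r)]
      calc (1 + (b 1 * Y ω + r)) ^ (2 * k) ≤ Real.exp (b 1 * Y ω + r) ^ (2 * k) :=
            pow_le_pow_left₀ h2 h3 _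
        _ = Real.exp (2 * k * r + (2 * k * b 1) * Y ω) := by
            rw [← Real.exp_nat_mul]
            congr 1
            push_cast
            ring
        _ ≤ Real.exp (2 * k * s + (2 * k * b 1) * Y ω) := by
            apply Real.exp_le_exp.2
            have := (abs_le.1 hr).2
            have : 2 * (k : ℝ) * r ≤ 2 * k * s := mul_le_mul_of_nonneg_left this (by positivity)
            linarith
        _ = _ := Real.exp_add _ _
    obtain ⟨hi, hle⟩ := exp_int μ Y hY hs hb (2 * k * b 1)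
    have h2 : ∫ ω, (∑ j ∈ range (J + 1), b j * Y ω ^ j) ^ (2 * k) ∂μ ≤
        ∫ ω, Real.exp (2 * k * s) * Real.exp ((2 * k * b 1) * Y ω) ∂μ :=
      integral_mono hgint (hi.const_mul _) h1
    rw [integral_const_mul] at h2
    have h3 : Real.exp (2 * k * s) * ∫ ω, Real.exp ((2 * k * b 1) * Y ω) ∂μ ≤
        Real.exp (2 * k * s) * Real.exp ((2 * k * b 1) ^ 2 / 2) :=
      mul_le_mul_of_nonneg_left hle (Real.exp_pos _).le
    rw [← Real.exp_add] at h3
    refine (h2.trans h3).trans (Real.exp_le_exp.2 ?_)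
    have h4 : (k : ℝ) ≤ (k : ℝ) ^ 2 := by nlinarith
    have h5 : 2 * (k : ℝ) * s ≤ 2 * (k : ℝ) ^ 2 * s := by
      have := mul_le_mul_of_nonneg_right h4 hs0
      linarith
    have h6 : (2 * (k : ℝ) * b 1) ^ 2 / 2 = 2 * (k : ℝ) ^ 2 * b 1 ^ 2 := by ring
    rw [h6]
    have t1 : 0 ≤ (k : ℝ) ^ 2 * (b 1 ^ 2 + s) := by positivity
    have t2 : 0 ≤ V * ((k : ℝ) ^ 2 * (b 1 ^ 2 + s)) := by positivity
    nlinarith

end Pool.Agent.T2H86.RG
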