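import Pool.Agent.T2H86.RG.Stm
import Pool.Agent.T2H86.RG.IMP
import Pool.Agent.T2H86.RC.SUM

/-!
# Package SU3 (adapted from RC/SUM)
-/

set_option autoImplicit false

namespace Pool.Agent.T2H86.RG

open Finset MeasureTheory ProbabilityTheory Pool.Agent.T2H86.RC


open Pool.Agent.T2H86.RC.SUM in
theorem pSU3 : S_SU3 := by
  intro P q hq lam hlam
  obtain ⟨θ, hθ0, hθ1, hbd⟩ := hlam.bound
  set η : ℝ := 1 / 2 - θ with hη
  have hη3 : 1 / 3 < η := by rw [hη]; linarith
  set r : ℝ := (2 : ℝ) ^ (-η) with hr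
  have hr0 : 0 < r := Real.rpow_pos_of_pos (by norm_num) _
  have hr1 : r < 1 := Real.rpow_lt_one_of_one_lt_of_neg (by norm_num) (by linarith)
  have hqpos : ∀ p, (0 : ℝ) < q p := fun p => by
    have := hq.two_le p
    exact_mod_cast (by omega : 0 < q p)
  have hq2 : ∀ p, (2 : ℝ) ≤ q p := fun p => by exact_mod_cast hq.two_le p
  set x : P → ℝ := fun p => (q p : ℝ) ^ (-η) with hx
  have hx0 : ∀ p, 0 < x p := fun p => Real.rpow_pos_of_pos (hqpos p) _
  have hxr : ∀ p, x p ≤ r := fun p =>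
    Real.rpow_le_rpow_of_nonpos (by norm_num) (hq2 p) (by linarith)
  have hbb0 : ∀ p j, 0 ≤ bb q lam p j := fun p j =>
    mul_nonneg (norm_nonneg _) (Real.rpow_nonneg (hqpos p).le _)
  have hbb : ∀ p j, bb q lam p j ≤ ((j : ℝ) + 1) * x p ^ j := by
    intro p j
    unfold bb
    calc ‖lam (Finsupp.single p j)‖ * (q p : ℝ) ^ (-(j : ℝ) / 2)
        ≤ (((j : ℝ) + 1) * (q p : ℝ) ^ ((j : ℝ) * θ)) * (q p : ℝ) ^ (-(j : ℝ) / 2) :=
          mul_le_mul_of_nonneg_right (hbd p j) (Real.rpow_nonneg (hqpos p).le _)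
      _ = ((j : ℝ) + 1) * x p ^ j := by
          rw [mul_assoc, ← Real.rpow_add (hqpos p)]
          simp only [hx]
          rw [← Real.rpow_natCast ((q p : ℝ) ^ (-η)) j, ← Real.rpow_mul (hqpos p).le]
          congr 2
          rw [hη]
          ring
  have hsum1 := summ 1 r hr0.le hr1
  have hsum4 := summ 4 r hr0.le hr1
  refine ⟨⟨∑' j : ℕ, ((j : ℝ) + 1) * r ^ j, tsum_nonneg fun j => by positivity, ?_⟩, ?_⟩
  · intro p J
    calc ∑ j ∈ range (J + 1), bb q lam p j ≤ ∑ j ∈ range (J + 1), ((j : ℝ) + 1) * r ^ j := by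
          apply Finset.sum_le_sum
          intro j _
          exact (hbb p j).trans (mul_le_mul_of_nonneg_left
            (pow_le_pow_left₀ (hx0 p).le (hxr p) j) (by positivity))
      _ ≤ _ := hsum1.sum_le_tsum _ fun j _ => by positivity
  · set W : ℝ := ∑' i : ℕ, ((i : ℝ) + 4) * r ^ i with hW
    have hW0 : 0 ≤ W := tsum_nonneg fun j => by positivity
    obtain ⟨C1, h1⟩ := hlam.rankin
    obtain ⟨C2, h2⟩ := hq.recip
    refine ⟨2 * |C1| + (1 + W) * |C2|, by positivity, ?_⟩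
    intro X J S hS
    have hx3 : ∀ p, x p ^ 3 ≤ 1 / (q p : ℝ) := by
      intro p
      simp only [hx]
      rw [← Real.rpow_natCast ((q p : ℝ) ^ (-η)) 3, ← Real.rpow_mul (hqpos p).le, one_div,
        ← Real.rpow_neg_one]
      apply Real.rpow_le_rpow_of_exponent_le (by linarith [hq2 p])
      push_cast
      linarith
    have hp : ∀ p, bb q lam p 1 ^ 2 + ∑ j ∈ Icc 2 J, bb q lam p j ≤
        2 * (‖lam (Finsupp.single p 1)‖ ^ 2 / (q p : ℝ)) + (1 + W) * (1 / (q p : ℝ)) := by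
      intro p
      have e1 : bb q lam p 1 ^ 2 = ‖lam (Finsupp.single p 1)‖ ^ 2 / (q p : ℝ) := by
        unfold bb
        rw [mul_pow, ← Real.rpow_natCast ((q p : ℝ) ^ (-((1 : ℕ) : ℝ) / 2)) 2,
          ← Real.rpow_mul (hqpos p).le]
        have e : (-((1 : ℕ) : ℝ) / 2 * ((2 : ℕ) : ℝ)) = -1 := by push_cast; ring
        rw [e, Real.rpow_neg_one]
        rfl
      have e2 : bb q lam p 2 ≤ (‖lam (Finsupp.single p 1)‖ ^ 2 + 1) / (q p : ℝ) := by
        unfold bb
        have e : (-((2 : ℕ) : ℝ) / 2) = -1 := by push_cast; ring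
        rw [e, Real.rpow_neg_one, ← div_eq_mul_inv]
        exact div_le_div_of_nonneg_right (hlam.square p) (hqpos p).le
      have e3 : ∑ j ∈ Icc 3 J, bb q lam p j ≤ W * (1 / (q p : ℝ)) := by
        calc ∑ j ∈ Icc 3 J, bb q lam p j ≤ ∑ i ∈ range J, bb q lam p (i + 3) :=
              shift3 _ (hbb0 p) J
          _ ≤ ∑ i ∈ range J, x p ^ 3 * (((i : ℝ) + 4) * r ^ i) := by
              apply Finset.sum_le_sum
              intro i _
              calc bb q lam p (i + 3) ≤ (((i + 3 : ℕ) : ℝ) + 1) * x p ^ (i + 3) := hbb p (i + 3)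
                _ = x p ^ 3 * (((i : ℝ) + 4) * x p ^ i) := by
                    push_cast
                    ring
                _ ≤ x p ^ 3 * (((i : ℝ) + 4) * r ^ i) := by
                    apply mul_le_mul_of_nonneg_left _ (pow_pos (hx0 p) 3).le
                    exact mul_le_mul_of_nonneg_left (pow_le_pow_left₀ (hx0 p).le (hxr p) i)
                      (by positivity)
          _ = x p ^ 3 * ∑ i ∈ range J, ((i : ℝ) + 4) * r ^ i := by rw [Finset.mul_sum]
          _ ≤ x p ^ 3 * W := by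
              apply mul_le_mul_of_nonneg_left _ (pow_pos (hx0 p) 3).le
              exact hsum4.sum_le_tsum _ fun j _ => by positivity
          _ ≤ (1 / (q p : ℝ)) * W := mul_le_mul_of_nonneg_right (hx3 p) hW0
          _ = _ := mul_comm _ _
      have e4 := two_split _ (hbb0 p) J
      have e5 : (‖lam (Finsupp.single p 1)‖ ^ 2 + 1) / (q p : ℝ) =
          ‖lam (Finsupp.single p 1)‖ ^ 2 / (q p : ℝ) + 1 / (q p : ℝ) := by ring
      rw [e5] at e2
      rw [e1]
      linarith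
    have g1 := (h1 X S hS).trans (mul_le_mul_of_nonneg_right (le_abs_self C1) (PkgIMP.ll_nonneg X))
    have g2 := (h2 X S hS).trans (mul_le_mul_of_nonneg_right (le_abs_self C2) (PkgIMP.ll_nonneg X))
    calc ∑ p ∈ S, (bb q lam p 1 ^ 2 + ∑ j ∈ Icc 2 J, bb q lam p j)
        ≤ ∑ p ∈ S, (2 * (‖lam (Finsupp.single p 1)‖ ^ 2 / (q p : ℝ)) + (1 + W) * (1 / (q p : ℝ))) :=
          Finset.sum_le_sum fun p _ => hp p
      _ = 2 * (∑ p ∈ S, ‖lam (Finsupp.single p 1)‖ ^ 2 / (q p : ℝ)) +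
          (1 + W) * ∑ p ∈ S, 1 / (q p : ℝ) := by
          rw [Finset.sum_add_distrib, ← Finset.mul_sum, ← Finset.mul_sum]
      _ ≤ 2 * (|C1| * Real.log (Real.log (X + 16))) +
          (1 + W) * (|C2| * Real.log (Real.log (X + 16))) := by
          have t1 := mul_le_mul_of_nonneg_left g1 (by norm_num : (0 : ℝ) ≤ 2)
          have t2 := mul_le_mul_of_nonneg_left g2 (by linarith : (0 : ℝ) ≤ 1 + W)
          linarith
      _ = (2 * |C1| + (1 + W) * |C2|) * Real.log (Real.log (X + 16)) := by ring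

end Pool.Agent.T2H86.RG
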