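import Pool.Agent.T2H86.RC.Stm

/-!
Project RG: upgrade of the landed result MP_21d687_nt.RandomCharacters from the bound `x^ε` to
`exp (C √(log x log log x))` (the conjectured order of the extreme values). Independent packages.
-/

set_option autoImplicit false

namespace Pool.Agent.T2H86.RG

open Finset MeasureTheory ProbabilityTheory Pool.Agent.T2H86.RC

/-- A system of primes with norms: the norms are at least two, only finitely many are below any bound, and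
the sum of the reciprocals up to `x` is `O(log log x)`. Example: the nonzero prime ideals of the ring of
integers of a number field. -/
structure Primes {P : Type} (q : P → ℕ) : Prop where
  two_le : ∀ p, 2 ≤ q p
  finite : ∀ x : ℕ, {p | q p ≤ x}.Finite
  recip : ∃ C : ℝ, ∀ (x : ℕ) (S : Finset P), (∀ p ∈ S, q p ≤ x) →
    ∑ p ∈ S, 1 / (q p : ℝ) ≤ C * Real.log (Real.log (x + 16))

/-- Coefficients of an `L`-function like that of a cuspidal automorphic representation of `PGL₂`: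
multiplicative, `|λ(p^j)| ≤ (j + 1) (N p)^(j θ)` with some `θ < 1/6` (`θ = 7/64` is known),
`|λ(p^2)| ≤ |λ(p)|^2 + 1`, and the Rankin-Selberg bound `∑_{N p ≤ x} |λ(p)|^2 / N p = O(log log x)`. -/
structure Coeffs {P : Type} (q : P → ℕ) (lam : (P →₀ ℕ) → ℂ) : Prop where
  one : lam 0 = 1
  mul : ∀ m n : P →₀ ℕ, Disjoint m.support n.support → lam (m + n) = lam m * lam n
  bound : ∃ θ : ℝ, 0 ≤ θ ∧ θ < 1 / 6 ∧ ∀ (p : P) (j : ℕ),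
    ‖lam (Finsupp.single p j)‖ ≤ ((j : ℝ) + 1) * (q p : ℝ) ^ ((j : ℝ) * θ)
  square : ∀ p : P, ‖lam (Finsupp.single p 2)‖ ≤ ‖lam (Finsupp.single p 1)‖ ^ 2 + 1
  rankin : ∃ C : ℝ, ∀ (x : ℕ) (S : Finset P), (∀ p ∈ S, q p ≤ x) →
    ∑ p ∈ S, ‖lam (Finsupp.single p 1)‖ ^ 2 / (q p : ℝ) ≤ C * Real.log (Real.log (x + 16))

/-- IMP (15 minutes, no deps). `log log (x + 16) ≤ ε log x + C` for `x ≥ 1` (for every `ε > 0`). -/
def S_IMP : Prop := (∀ {P : Type} (q : P → ℕ), Primes q → PrimeSystem q) ∧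
  ∀ {P : Type} (q : P → ℕ) (lam : (P →₀ ℕ) → ℂ), Coeffs q lam → CoeffSystem q lam

/-- LO3 (40 minutes, no deps). Let `y = ∑_{1 ≤ j ≤ J} b_j Y^j`, `B = ∑_{2 ≤ j ≤ J} b_j`, `M = b_1 + B ≤ V`;
`|y| ≤ M`. If `M ≥ 1` then `(1 + y)^(2k) ≤ exp (2 k M) ≤ exp (2 k² M²)`. If `M < 1` then
`0 ≤ 1 + y ≤ exp y`, so `E (1 + y)^(2k) ≤ E exp (2 k y) ≤ exp (2 k E y + 2 k² M²)` by the lemma of Hoeffding
(Mathlib: `ProbabilityTheory.hasSubgaussianMGF_of_mem_Icc`; or by hand,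
`exp (s y) ≤ 1 + s y + s² y² exp (|s y|)`-type bounds with other constants), and `E y ≤ B` because `E Y = 0`.
In both cases use `M² ≤ 2 b_1² + 2 B² ≤ 2 b_1² + 2 V B` and `k ≤ k²`. -/
def S_LO3 : Prop := ∀ V : ℝ, 0 ≤ V → ∃ C : ℝ, 0 ≤ C ∧
  ∀ {Ω : Type} [MeasurableSpace Ω] (μ : Measure Ω) [IsProbabilityMeasure μ] (Y : Ω → ℝ),
  Measurable Y → μ.map Y = μ.map (fun ω => -Y ω) → (∀ ω, |Y ω| ≤ 1) →
  ∀ (k J : ℕ) (b : ℕ → ℝ), 1 ≤ k → 1 ≤ J → (∀ j, 0 ≤ b j) → b 0 = 1 →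
  ∑ j ∈ range (J + 1), b j ≤ V →
  ∫ ω, (∑ j ∈ range (J + 1), b j * Y ω ^ j) ^ (2 * k) ∂μ ≤
    Real.exp (C * (k : ℝ) ^ 2 * (b 1 ^ 2 + ∑ j ∈ Icc 2 J, b j))

/-- SU3 (30 minutes, no deps; copy and adapt `Pool/Agent/T2H86/RC/SUM.lean`, where the local bounds are
already proved). -/
def S_SU3 : Prop := ∀ {P : Type} (q : P → ℕ), Primes q → ∀ lam : (P →₀ ℕ) → ℂ,
  Coeffs q lam →
  (∃ V : ℝ, 0 ≤ V ∧ ∀ (p : P) (J : ℕ), ∑ j ∈ range (J + 1), bb q lam p j ≤ V) ∧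
  ∃ C : ℝ, 0 ≤ C ∧ ∀ (x J : ℕ) (S : Finset P), (∀ p ∈ S, q p ≤ x) →
    ∑ p ∈ S, (bb q lam p 1 ^ 2 + ∑ j ∈ Icc 2 J, bb q lam p j) ≤ C * Real.log (Real.log (x + 16))

/-- MO3 (mine). -/
def S_MO3 : Prop := ∀ {P Ω : Type} [MeasurableSpace Ω] (μ : Measure Ω) [IsProbabilityMeasure μ]
  (X : P → Ω → ℝ), Model μ X → ∀ (q : P → ℕ), Primes q → ∀ lam : (P →₀ ℕ) → ℂ,
  Coeffs q lam → ∃ C : ℝ, 0 ≤ C ∧ ∀ (k x : ℕ), 1 ≤ k → 1 ≤ x → ∀ t : ℝ,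
  ∫ ω, ‖centralSum q lam (fun p => X p ω) x t‖ ^ (2 * k) ∂μ ≤
    Real.exp (C * (k : ℝ) ^ 2 * Real.log (Real.log (x + 16)))

/-- BC3 (60 minutes, no deps; compare `Pool/Agent/T2H86/RC/BCA.lean`). For a natural number `m` consider the
net of the points `j / x^5`, `j` an integer, `|j| ≤ x^(m + 5) + 1`, and the events `E_x`: `‖F x t‖ > V` for
some `t` of the net, `V = exp (C' √(log x log log x))`, `x ≥ 16`. Put `l = log x`, `l₂ = log log x ≥ 1` and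
`l₂' = log log (x + 16) ≤ 2 l₂`. With `k = ⌈√(l / l₂)⌉ ≤ √(l / l₂) + 1` one has `k² l₂' ≤ 4 (l + l₂) ≤ 8 l` and
`k log V ≥ C' l`, so that by Markov's inequality the probability of `E_x` is at most
`(2 x^(m+5) + 3) exp (C k² l₂' - 2 k log V) ≤ (2 x^(m+5) + 3) x^(8 C - 2 C')`, summable if
`2 C' ≥ 8 C + m + 7`. By the lemma of Borel and Cantelli almost surely `E_x` holds for finitely many `x` only;
then `‖F x t‖ ≤ V + K` for all `|t| ≤ x^m` and all large `x`, and for the finitely many other `x ≥ 3` use the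
trivial bound `K x^5 ≤ exp (C'' √(log x log log x))` with a large `C''` (`log log 3 > 0`). Intersect over all
`m`. -/
def S_BC3 : Prop := ∀ {Ω : Type} [MeasurableSpace Ω] (μ : Measure Ω) [IsProbabilityMeasure μ]
  (F : ℕ → ℝ → Ω → ℂ), (∀ x t, Measurable (F x t)) →
  (∃ C : ℝ, 0 ≤ C ∧ ∀ (k x : ℕ), 1 ≤ k → 1 ≤ x → ∀ t : ℝ,
    ∫ ω, ‖F x t ω‖ ^ (2 * k) ∂μ ≤ Real.exp (C * (k : ℝ) ^ 2 * Real.log (Real.log (x + 16)))) →
  (∃ K : ℝ, 0 ≤ K ∧ ∀ x : ℕ, 1 ≤ x → ∀ ω,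
    (∀ t t' : ℝ, ‖F x t ω - F x t' ω‖ ≤ K * (x : ℝ) ^ 5 * |t - t'|) ∧
    ∀ t : ℝ, ‖F x t ω‖ ≤ K * (x : ℝ) ^ 5) →
  ∀ᵐ ω ∂μ, ∀ A : ℝ, 0 < A → ∃ C : ℝ, ∀ x : ℕ, 3 ≤ x → ∀ t : ℝ, |t| ≤ (x : ℝ) ^ A →
    ‖F x t ω‖ ≤ Real.exp (C * Real.sqrt (Real.log x * Real.log (Real.log x)))

end Pool.Agent.T2H86.RG
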